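import Pool.Agent.Q240.Mex.Final

set_option autoImplicit false

/-!
# MP_79ff05_co: supersaturation for clique counts in graphs with a fixed number of edges

For all `r ≥ s ≥ 3` and `ε > 0` there are `δ > 0` and `m0` such that every graph with `m ≥ m0` edges
and at least `mex_{K_s}(m, K_{r+1}) + ε * m^(s/2)` copies of `K_s` contains at least
`δ * m^((r+1)/2)` copies of `K_{r+1}`.

Idea of the proof. The vertices of degree at most `(ε/4) * √m` are in few copies of `K_s`, and there
are `O(√m)` other vertices. If the graph has few copies of `K_{r+1}`, then almost all samples of `t`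
of these vertices induce a `K_{r+1}`-free graph; a blow-up of the sample, with disjoint edges added,
has `m` edges and is `K_{r+1}`-free, which bounds the number of copies of `K_s` in the sample by the
`(s/2)`-th power of its number of edges; squares and `s`-th moments are compared.
The definitions of `numEdges`, `numCliques` and `mex` are in `Pool.Agent.Q240.Mex.Mex`.
-/

namespace Pool.Agent.Results.MP_79ff05_co.Supersaturation

open Pool.Agent.Q240.Mex

/-- Supersaturation for the number of copies of `K_s` in graphs with a fixed number of edges. -/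
theorem result (r s : ℕ) (hs : 3 ≤ s) (hrs : s ≤ r) (ε : ℝ) (hε : 0 < ε) :
    ∃ δ : ℝ, 0 < δ ∧ ∃ m0 : ℕ, ∀ (V : Type) [Fintype V] (G : SimpleGraph V),
      m0 ≤ numEdges G →
      (mex s r (numEdges G) : ℝ) + ε * (numEdges G : ℝ) ^ ((s : ℝ) / 2) ≤
        (numCliques G s : ℝ) →
      δ * (numEdges G : ℝ) ^ (((r : ℝ) + 1) / 2) ≤ (numCliques G (r + 1) : ℝ) := by
  obtain ⟨δ, hδ, m0, h⟩ := core r s hs hrs (min ε 1) (lt_min hε one_pos) (min_le_right _ _)
  refine ⟨δ, hδ, m0, ?_⟩
  intro V _ G hm hbig
  have hpow : ∀ k : ℕ, (numEdges G : ℝ) ^ ((k : ℝ) / 2) = Real.sqrt (numEdges G) ^ k := by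
    intro k
    rw [Real.sqrt_eq_rpow, ← Real.rpow_natCast, ← Real.rpow_mul (Nat.cast_nonneg _)]
    congr 1
    ring
  have h1 := h V G hm
  have h2 : (mex s r (numEdges G) : ℝ) + min ε 1 * Real.sqrt (numEdges G) ^ s ≤
      (numCliques G s : ℝ) := by
    rw [hpow s] at hbig
    have h3 : min ε 1 * Real.sqrt (numEdges G) ^ s ≤ ε * Real.sqrt (numEdges G) ^ s :=
      mul_le_mul_of_nonneg_right (min_le_left _ _) (by positivity)
    linarith
  have h4 := h1 h2
  have h5 : (numEdges G : ℝ) ^ (((r : ℝ) + 1) / 2) = Real.sqrt (numEdges G) ^ (r + 1) := by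
    have := hpow (r + 1)
    push_cast at this
    exact this
  rw [h5]
  exact h4

end Pool.Agent.Results.MP_79ff05_co.Supersaturation
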